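import Pool.Agent.Helper84_TMP.Base
import Pool.Agent.Helper2_TMP.StG

/-!
# Exact temperedness: statements of the modules of the local theory over `FF K`
-/

open scoped BigOperators

namespace Pool.Agent.TMP

open Pool.Agent.DEN

/-! ## The group -/

/-- SL2: the relation between `x_{-β}(a)` and `x_β(b)` (from the library: RELC, RELH). -/
def SltStmt : Prop :=
  ∀ (r : ℕ) (C : Matrix (Fin r) (Fin r) ℤ) (hC : SimplyLaced C) (K : Type) [Field K]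
    (β : Rt C) (a b : FF K), 1 - a * b ≠ 0 →
    xg hC β.neg a * xg hC β b = xg hC β (b / (1 - a * b)) *
      (wg hC β (1 - a * b)⁻¹ * (wg hC β (1 : FF K))⁻¹) * xg hC β.neg (a / (1 - a * b))

/-- KGN: `maxK` is generated by the integral root elements (Iwasawa decomposition `G = U t^l K₀`
with the group `K₀` generated by them, as in RK1, IWA of the library; then HOR). -/
def KgnStmt : Prop :=
  ∀ (r : ℕ) (C : Matrix (Fin r) (Fin r) ℤ) (hC : SimplyLaced C) (K : Type) [Field K],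
    maxK C K = Subgroup.closure {g | ∃ (β : Rt C) (a : FF K), a ∈ Bd K 0 ∧ g = xg hC β a}

/-- COO: the coordinates of the elements of `U^{(h)}` (from the library: CAR with `l = 2ρ`,
RootDesc, RootSign, MAX; the coordinate is the Cartan component of `u e_{-β}`). -/
def CooStmt : Prop :=
  ∀ (r : ℕ) (C : Matrix (Fin r) (Fin r) ℤ) (hC : SimplyLaced C) (K : Type) [Field K],
    ∃ co : grp C K → Rt C → FF K,
    (∀ (h : ℕ) (u v : grp C K) (β : Rt C), 1 ≤ h → u ∈ UH hC K h → v ∈ UH hC K h → ht β = h →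
      co (u * v) β = co u β + co v β) ∧
    (∀ (β : Rt C) (a : FF K), β.Pos → co (xg hC β a) β = a) ∧
    (∀ (β γ : Rt C) (a : FF K), β.Pos → ht γ = ht β → γ ≠ β → co (xg hC γ a) β = 0) ∧
    (∀ (h : ℕ) (u : grp C K) (β : Rt C), 1 ≤ h → u ∈ UH hC K (h + 1) → ht β = h →
      co u β = 0) ∧
    (∀ (h : ℕ) (u : grp C K), 1 ≤ h → u ∈ UH hC K h → (∀ β : Rt C, ht β = h → co u β = 0) →
      u ∈ UH hC K (h + 1)) ∧
    (∀ (h : ℕ) (u : grp C K) (β : Rt C) (l : Fin r → ℤ), 1 ≤ h → u ∈ UH hC K h → ht β = h →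
      u • tp hC K l = tp hC K l → co u β ∈ Bd K (ip C β.1 l)) ∧
    (∃ H : ℕ, ∀ h, H ≤ h → UH hC K h = ⊥)

/-- HOR: uniqueness in the Iwasawa decomposition (the first part: if `t^{-l} u t^m ∈ K`, look at the
`e_β`-coordinate of the image of `e_β` for all roots `β`; the other parts from COO). -/
def HorStmt : Prop :=
  ∀ (r : ℕ) (C : Matrix (Fin r) (Fin r) ℤ) (hC : SimplyLaced C) (K : Type) [Field K],
    (∀ u ∈ Ug C K, ∀ l m : Fin r → ℤ, u • tp hC K l = tp hC K m → l = m) ∧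
    (∀ (i : Fin r) (b b' : FF K) (l : Fin r → ℤ), ∀ u ∈ Un C K i,
      u • xi hC i b • tp hC K l = xi hC i b' • tp hC K l → b - b' ∈ Bd K (ip C (al i) l)) ∧
    (∀ u ∈ Ug C K, u • oo C K = oo C K → u ∈ UO hC K)

/-- CLS: sums over the classes modulo `Bd n` (`[Bd m : Bd n] = q^(m-n)`). -/
def ClsStmt : Prop :=
  ∀ (K : Type) [Field K] [Finite K] (X : Type) (n p M : ℤ), n ≤ p → p ≤ M →
    ∀ P : FF K → X, (∀ b b', P b = P b' ↔ b - b' ∈ Bd K n) → ∀ (f : X → ℂ) (a : ℤ → ℂ),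
    (∀ b ∈ Bd K p, f (P b) = a p) →
    (∀ m, p < m → m ≤ M → ∀ b ∈ Bd K m, b ∉ Bd K (m - 1) → f (P b) = a m) →
    (P '' Bd K M).Finite ∧
    ∑ᶠ y ∈ P '' Bd K M, f y = (Nat.card K : ℂ) ^ (p - n) * a p +
      ∑ m ∈ Finset.Ioc p M, ((Nat.card K : ℂ) - 1) * (Nat.card K : ℂ) ^ (m - 1 - n) * a m

/-- VIS: `V_i` is normalised by `x_{±α_i}(𝒪)` and `w_i`, `I = V_i I_i`, and `K₀` is generated by
`I` and the `w_i` (from the library: RELA, RELB, RELC, RootDesc). -/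
def VisStmt : Prop :=
  ∀ (r : ℕ) (C : Matrix (Fin r) (Fin r) ℤ) (hC : SimplyLaced C) (K : Type) [Field K],
    (∀ (i : Fin r), ∀ v ∈ Vi hC K i, ∀ a ∈ Bd K 0,
      xi hC i a * v * (xi hC i a)⁻¹ ∈ Vi hC K i ∧ yi hC i a * v * (yi hC i a)⁻¹ ∈ Vi hC K i) ∧
    (∀ (i : Fin r), ∀ v ∈ Vi hC K i, wi hC K i * v * (wi hC K i)⁻¹ ∈ Vi hC K i ∧
      (wi hC K i)⁻¹ * v * wi hC K i ∈ Vi hC K i) ∧
    (∀ (i : Fin r), Vi hC K i ≤ Iw hC K ∧ Ii hC K i ≤ Iw hC K ∧ Iw hC K ≤ maxK C K ∧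
      ∀ g ∈ Iw hC K, ∃ v ∈ Vi hC K i, ∃ j ∈ Ii hC K i, g = v * j) ∧
    (∀ H : Subgroup (grp C K), Iw hC K ≤ H → (∀ i, wi hC K i ∈ H) →
      ∀ (β : Rt C), ∀ a ∈ Bd K 0, xg hC β a ∈ H) ∧
    (∀ (i : Fin r), ∀ u ∈ Un C K i, ∀ a : FF K,
      yi hC i a * u * (yi hC i a)⁻¹ ∈ Un C K i) ∧
    (∀ (i : Fin r), ∀ u ∈ Un C K i, (wi hC K i)⁻¹ * u * wi hC K i ∈ Un C K i)

/-- LIN: the rank one lines. For `(α_i, l) ≤ 0` the set `Y = {x_i(b) t^l o : b ∈ 𝒪}` is the orbit of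
`t^l o` under `I_i`, `Y' = w_i {x_i(b) t^l o : b ∈ t⁻¹ 𝒪}` is the orbit of `w_i t^l o`, and
`w_i` preserves `Y ∪ Y'`; every `x_i(b) t^m o` is in such a set (from SL2, RK1). -/
def LinStmt : Prop :=
  ∀ (r : ℕ) (C : Matrix (Fin r) (Fin r) ℤ) (hC : SimplyLaced C) (K : Type) [Field K]
    (i : Fin r),
    (∀ l : Fin r → ℤ, ip C (al i) l ≤ 0 →
      {y : XX C K | ∃ j ∈ Ii hC K i, y = j • tp hC K l} =
        {y | ∃ b ∈ Bd K 0, y = xi hC i b • tp hC K l} ∧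
      {y : XX C K | ∃ j ∈ Ii hC K i, y = j • tp hC K (sf C i l)} =
        {y | ∃ b ∈ Bd K (-1), y = wi hC K i • xi hC i b • tp hC K l} ∧
      ∀ y : XX C K, ((∃ b ∈ Bd K 0, y = xi hC i b • tp hC K l) ∨
          (∃ b ∈ Bd K (-1), y = wi hC K i • xi hC i b • tp hC K l)) →
        ((∃ b ∈ Bd K 0, wi hC K i • y = xi hC i b • tp hC K l) ∨
          (∃ b ∈ Bd K (-1), wi hC K i • y = wi hC K i • xi hC i b • tp hC K l)) ∧
        ((∃ b ∈ Bd K 0, (wi hC K i)⁻¹ • y = xi hC i b • tp hC K l) ∨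
          (∃ b ∈ Bd K (-1), (wi hC K i)⁻¹ • y = wi hC K i • xi hC i b • tp hC K l))) ∧
    (∀ (b : FF K) (m : Fin r → ℤ), ∃ l : Fin r → ℤ, ip C (al i) l ≤ 0 ∧
      ((∃ b' ∈ Bd K 0, xi hC i b • tp hC K m = xi hC i b' • tp hC K l) ∨
        (∃ b' ∈ Bd K (-1), xi hC i b • tp hC K m = wi hC K i • xi hC i b' • tp hC K l)))

/-- IAN: the Iwahori orbit of `t^l o` for an antidominant `l` is in `U(𝒪) t^l o` (from SL2,
RELA, RELB: paper of helper43, part B). -/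
def IanStmt : Prop :=
  ∀ (r : ℕ) (C : Matrix (Fin r) (Fin r) ℤ) (hC : SimplyLaced C) (K : Type) [Field K]
    (l : Fin r → ℤ), IsAnti C l → ∀ g ∈ Iw hC K, ∃ u ∈ UO hC K, g • tp hC K l = u • tp hC K l

/-- KOR: the `K`-orbit of `t^l o` is the union of the Iwahori orbits of the `t^m o`, `m ∈ W l`
(from KGN, VIS, LIN). -/
def KorStmt : Prop :=
  ∀ (r : ℕ) (C : Matrix (Fin r) (Fin r) ℤ) (hC : SimplyLaced C) (K : Type) [Field K]
    (l : Fin r → ℤ),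
    (∀ k ∈ maxK C K, ∃ m : Fin r → ℤ, WR C l m ∧ ∃ g ∈ Iw hC K, k • tp hC K l = g • tp hC K m) ∧
    (∀ m, WR C l m → ∃ k ∈ maxK C K, tp hC K m = k • tp hC K l)

/-- CAT: Cartan decomposition, and the horocycles which meet a `K`-orbit (from KFIN, COO, HOR,
IAN, KOR: maximal norm in the finite `K`-orbit). -/
def CatStmt : Prop :=
  ∀ (r : ℕ) (C : Matrix (Fin r) (Fin r) ℤ) (hC : SimplyLaced C) (K : Type) [Field K]
    [Finite K],
    (∀ x : XX C K, ∃ k ∈ maxK C K, ∃ l : Fin r → ℤ, IsAnti C l ∧ x = k • tp hC K l) ∧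
    (∀ (l m : Fin r → ℤ), ∀ k ∈ maxK C K, ∀ u ∈ Ug C K, k • tp hC K l = u • tp hC K m →
      ip C m m ≤ ip C l l ∧ (ip C m m = ip C l l → WR C l m)) ∧
    (∀ l : Fin r → ℤ, IsAnti C l → l ≠ 0 → ∃ i, l i < 0) ∧
    (∀ l : Fin r → ℤ, ∃ m, WR C l m ∧ IsAnti C m)

/-! ## Kernels -/

/-- KER: operations on kernels (from KFIN). -/
def KerStmt : Prop :=
  ∀ (r : ℕ) (C : Matrix (Fin r) (Fin r) ℤ) (_ : SimplyLaced C) (K : Type) [Field K] [Finite K],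
    (∀ k : XX C K → XX C K → ℂ, IsKer k → ∀ y, {x | k x y ≠ 0}.Finite) ∧
    (∀ k k' : XX C K → XX C K → ℂ, IsKer k → IsKer k' → IsKer (kmul k k')) ∧
    (∀ k : XX C K → XX C K → ℂ, IsKer k → IsKer (kst k)) ∧
    (∀ k k' : XX C K → XX C K → ℂ, IsKer k → IsKer k' → IsKer (k + k')) ∧
    (∀ (c : ℂ) (k : XX C K → XX C K → ℂ), IsKer k → IsKer (c • k)) ∧
    IsKer (kone : XX C K → XX C K → ℂ) ∧
    (∀ k : XX C K → XX C K → ℂ, IsKer k →
      kmul k (kst k) (oo C K) (oo C K) = ((∑ᶠ y, ‖k (oo C K) y‖ ^ 2 : ℝ) : ℂ)) ∧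
    (∀ k : XX C K → XX C K → ℂ, IsKer k → ∀ g ∈ maxK C K, ∀ y,
      k (oo C K) (g • y) = k (oo C K) y)

/-- KHK: kernels and Hecke functions (the definitions of `StG`, from KER). -/
def KhkStmt : Prop :=
  ∀ (r : ℕ) (C : Matrix (Fin r) (Fin r) ℤ) (_ : SimplyLaced C) (K : Type) [Field K] [Finite K],
    (∀ k : XX C K → XX C K → ℂ, IsKer k →
      DEN.TMP.Hk (maxK C K) (fun g : grp C K => k (oo C K) (g • oo C K)) ∧
      (∀ x y : XX C K, k x y = k (oo C K) ((x.out⁻¹ * y.out) • oo C K)) ∧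
      normSq (maxK C K) (fun g : grp C K => k (oo C K) (g • oo C K)) = ∑ᶠ y, ‖k (oo C K) y‖ ^ 2 ∧
      DEN.TMP.sta (fun g : grp C K => k (oo C K) (g • oo C K)) = fun g : grp C K => kst k (oo C K) (g • oo C K)) ∧
    (∀ k k' : XX C K → XX C K → ℂ, IsKer k → IsKer k' →
      DEN.TMP.cnv (maxK C K) (fun g : grp C K => k (oo C K) (g • oo C K))
        (fun g : grp C K => k' (oo C K) (g • oo C K)) = fun g : grp C K => kmul k k' (oo C K) (g • oo C K)) ∧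
    (DEN.TMP.uni (maxK C K) = fun g : grp C K => kone (oo C K) (g • oo C K)) ∧
    (∀ κ : grp C K → ℂ, DEN.TMP.Hk (maxK C K) κ → ∃ k : XX C K → XX C K → ℂ, IsKer k ∧
      (∀ g, κ g = k (oo C K) (g • oo C K)) ∧ ∀ τ, NormLE (maxK C K) κ τ → KNorm k τ)

/-- RAD: the radius of the points of norm at most `M`. -/
def RadStmt : Prop :=
  ∀ (r : ℕ) (C : Matrix (Fin r) (Fin r) ℤ) (hC : SimplyLaced C) (K : Type) [Field K]
    (l : Fin r → ℤ) (ρ : ℕ), 2 * ip C l l ≤ (ρ : ℤ) ^ 2 → ∀ k ∈ maxK C K,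
    bnd ρ (k * tg hC K l) ∧ bnd ρ (k * tg hC K l)⁻¹

/-! ## The Satake transform -/

/-- WIN: `S k` is invariant under the simple reflections (from KER, HOR, CLS, VIS, RK1). -/
def WinStmt : Prop :=
  ∀ (r : ℕ) (C : Matrix (Fin r) (Fin r) ℤ) (hC : SimplyLaced C) (K : Type) [Field K] [Finite K]
    (k : XX C K → XX C K → ℂ), IsKer k → ∀ (i : Fin r) (l : Fin r → ℤ),
    sat hC k (sf C i l) = sat hC k l

/-- SMU: `S` is linear, multiplicative and unital; its values have finite support (from KER,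
HOR). -/
def SmuStmt : Prop :=
  ∀ (r : ℕ) (C : Matrix (Fin r) (Fin r) ℤ) (hC : SimplyLaced C) (K : Type) [Field K] [Finite K],
    (∀ k : XX C K → XX C K → ℂ, IsKer k → {l | sat hC k l ≠ 0}.Finite) ∧
    (∀ k k' : XX C K → XX C K → ℂ, IsKer k → IsKer k' → ∀ l,
      sat hC (kmul k k') l = ∑ᶠ m, sat hC k m * sat hC k' (l - m)) ∧
    (∀ k k' : XX C K → XX C K → ℂ, IsKer k → IsKer k' → ∀ l,
      sat hC (k + k') l = sat hC k l + sat hC k' l) ∧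
    (∀ (c : ℂ) (k : XX C K → XX C K → ℂ), IsKer k → ∀ l, sat hC (c • k) l = c * sat hC k l) ∧
    (sat hC (kone : XX C K → XX C K → ℂ) 0 = 1) ∧
    (∀ l, l ≠ 0 → sat hC (kone : XX C K → XX C K → ℂ) l = 0) ∧
    (∀ k : XX C K → XX C K → ℂ, IsKer k → ∀ (x : XX C K) (l m : Fin r → ℤ), x ∈ Hor hC K l →
      ∑ᶠ y ∈ Hor hC K m, k x y = hsum hC k (m - l))

/-! ## The inversion at the identity -/

/-- The coefficients of `∏_{β > 0} (1 - e^β) / (1 - q⁻¹ e^β)`. -/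
structure IsDel {r : ℕ} (C : Matrix (Fin r) (Fin r) ℤ) (q : ℝ) (D : (Fin r → ℤ) → ℂ) : Prop where
  zero : D 0 = 1
  supp : ∀ l, D l ≠ 0 → ∀ i, 0 ≤ l i
  sum : ∀ S : Finset (Fin r → ℤ), ∑ l ∈ S, ‖D l‖ ≤ 2 ^ Nat.card (Rt C)
  rcr : ∀ (i : Fin r) (l : Fin r → ℤ), 0 < ip C (al i) l →
    ((q : ℂ))⁻¹ * D (sf C i l) = D l +
      (1 - (q : ℂ)⁻¹) * ∑ j ∈ Finset.Ico 1 (ip C (al i) l).toNat, D (l - (j : ℤ) • al i)

/-- DEL: the coefficients exist. -/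
def DelStmt : Prop :=
  ∀ (r : ℕ) (C : Matrix (Fin r) (Fin r) ℤ) (_ : SimplyLaced C) (q : ℝ), 1 < q →
    ∃ D, IsDel C q D

/-- AVG: mean values over finite orbits. -/
def AvgStmt : Prop :=
  (∀ (G X Y : Type) [Group G] [MulAction G X] [MulAction G Y] (J : Subgroup G) (x : X) (y : Y)
    (f : X → ℂ) (g : Y → ℂ), {z | ∃ j ∈ J, z = j • x}.Finite → {z | ∃ j ∈ J, z = j • y}.Finite →
    (∀ j ∈ J, f (j • x) = g (j • y)) → av J f x = av J g y) ∧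
  (∀ (G X : Type) [Group G] [MulAction G X] (J : Subgroup G) (f : X → ℂ) (S : Set X) (c : ℂ),
    S.Finite → (∀ j ∈ J, ∀ x ∈ S, j • x ∈ S) → (∀ x ∈ S, av J f x = c) →
    ∑ᶠ x ∈ S, f x = c * Nat.card S)

/-- INV: the inversion at the identity (from KFIN, KER, AVG, LIN, CLS, VIS, IAN, KGN, CAT, HOR). -/
def InvStmt : Prop :=
  ∀ (r : ℕ) (C : Matrix (Fin r) (Fin r) ℤ) (hC : SimplyLaced C) (K : Type) [Field K] [Finite K]
    (D : (Fin r → ℤ) → ℂ), IsDel C (Nat.card K) D → ∀ k : XX C K → XX C K → ℂ, IsKer k →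
    k (oo C K) (oo C K) = ∑ᶠ l, D l * sat hC k l

/-- PLN: the Plancherel upper bound (from DEL, INV, SMU, KER, FLA). -/
def PlnStmt : Prop :=
  ∀ (r : ℕ) (C : Matrix (Fin r) (Fin r) ℤ) (hC : SimplyLaced C) (K : Type) [Field K] [Finite K]
    (k : XX C K → XX C K → ℂ), IsKer k →
    ∑ᶠ y, ‖k (oo C K) y‖ ^ 2 ≤ 2 ^ Nat.card (Rt C) * ∑ᶠ l, ‖sat hC k l‖ ^ 2

/-! ## The adjoint and the norm -/

/-- CTU: the number of points of `U(𝒪) t^(-l) o` (from COO, CLS). -/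
def CtuStmt : Prop :=
  ∀ (r : ℕ) (C : Matrix (Fin r) (Fin r) ℤ) (hC : SimplyLaced C) (K : Type) [Field K] [Finite K]
    (l : Fin r → ℤ), IsDom C l →
    {y : XX C K | ∃ u ∈ UO hC K, y = u • tp hC K (-l)}.Finite ∧
    (Nat.card {y : XX C K | ∃ u ∈ UO hC K, y = u • tp hC K (-l)} : ℂ) =
      (Nat.card K : ℂ) ^ (2 * hv l)

/-- DEP: horocycles and the orbits of `U(𝒪)`, deep in the dominant chamber (from KER, SMU, HOR). -/
def DepStmt : Prop :=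
  ∀ (r : ℕ) (C : Matrix (Fin r) (Fin r) ℤ) (hC : SimplyLaced C) (K : Type) [Field K] [Finite K]
    (k : XX C K → XX C K → ℂ), IsKer k → ∃ D : ℤ, ∀ l m : Fin r → ℤ,
    (∀ i, D ≤ ip C (al i) l) → ∀ u ∈ UO hC K,
    ∑ᶠ y ∈ {y : XX C K | ∃ u ∈ UO hC K, y = u • tp hC K (-m)}, k (u • tp hC K (-l)) y =
      hsum hC k (l - m)

/-- FLA: the adjoint, and the lower bound of the norm (from CTU, DEP, SMU, KER). -/
def FlaStmt : Prop :=
  ∀ (r : ℕ) (C : Matrix (Fin r) (Fin r) ℤ) (hC : SimplyLaced C) (K : Type) [Field K] [Finite K]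
    (k : XX C K → XX C K → ℂ), IsKer k →
    (∀ l, sat hC (kst k) l = (starRingEnd ℂ) (sat hC k (-l))) ∧
    (∀ τ : ℝ, 0 ≤ τ → KNorm k τ → ∀ s : (Fin r → ℤ) → ℂ, (∀ l m, s (l + m) = s l * s m) →
      (∀ l, ‖s l‖ = 1) → ‖∑ᶠ l, sat hC k l * s l‖ ≤ τ)

/-- SUR: the Satake transform is surjective, with control of the support (from WIN, SMU, CAT, KOR,
KER). -/
def SurStmt : Prop :=
  ∀ (r : ℕ) (C : Matrix (Fin r) (Fin r) ℤ) (hC : SimplyLaced C) (K : Type) [Field K] [Finite K]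
    (F : (Fin r → ℤ) → ℂ), {l | F l ≠ 0}.Finite → (∀ i l, F (sf C i l) = F l) →
    ∀ M : ℤ, (∀ l, F l ≠ 0 → ip C l l ≤ M) →
    ∃ k : XX C K → XX C K → ℂ, IsKer k ∧ (∀ l, sat hC k l = F l) ∧
      ∀ y, k (oo C K) y ≠ 0 → ∃ g ∈ maxK C K, ∃ l : Fin r → ℤ, ip C l l ≤ M ∧ y = g • tp hC K l

/-! The assembly of the local part is `Pool.Agent.DEN.TMP.LocfStmt` of `StG` (LOCF: from KHK, RAD,
WIN, SMU, PLN, FLA, SUR and the elimination `H29.elim` of helper29). -/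

end Pool.Agent.TMP
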