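import Pool.Agent.Helper22_DEN.Asm

/-!
# Exact temperedness: the local theory over `FF K`, definitions and basic facts

`tp l` is the point `t^l o` of `X = G / maxK`, `tg l` the torus element `t^l`,
`wi hC i` the element `w_{α_i}(1)`.
-/

open scoped BigOperators

namespace Pool.Agent.TMP

open Pool.Agent.DEN

section
variable {r : ℕ} {C : Matrix (Fin r) (Fin r) ℤ} {K : Type} [Field K]

/-! ## Definitions -/

/-- The height of a vector. -/
def hv (l : Fin r → ℤ) : ℤ := ∑ i, l i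

variable (C) in
/-- The simple reflection `s_i`. -/
def sf (i : Fin r) (l : Fin r → ℤ) : Fin r → ℤ := l - ip C (al i) l • al i

variable (C) in
/-- `l` is antidominant. -/
def IsAnti (l : Fin r → ℤ) : Prop := ∀ i, ip C (al i) l ≤ 0

variable (C) in
/-- `m` is in the orbit of `l` under the group generated by the simple reflections. -/
def WR (l m : Fin r → ℤ) : Prop := Relation.ReflTransGen (fun a b => ∃ i, b = sf C i a) l m

/-- The torus element `t^l`. -/
noncomputable def tg (hC : SimplyLaced C) (K : Type) [Field K] (l : Fin r → ℤ) : grp C K :=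
  (H22.isTor_exists (K := K) hC l).choose

/-- The base point. -/
noncomputable def oo (C : Matrix (Fin r) (Fin r) ℤ) (K : Type) [Field K] : XX C K := pt 1

/-- The point `t^l o`. -/
noncomputable def tp (hC : SimplyLaced C) (K : Type) [Field K] (l : Fin r → ℤ) : XX C K :=
  pt (tg hC K l)

/-- The element `w_{α_i}(1)`. -/
noncomputable def wi (hC : SimplyLaced C) (K : Type) [Field K] (i : Fin r) : grp C K :=
  wg hC (hC.sr i) 1

/-- The root element for the simple root `α_i`. -/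
noncomputable def xi (hC : SimplyLaced C) (i : Fin r) (a : FF K) : grp C K := xg hC (hC.sr i) a

/-- The root element for the root `- α_i`. -/
noncomputable def yi (hC : SimplyLaced C) (i : Fin r) (a : FF K) : grp C K :=
  xg hC (hC.sr i).neg a

/-- `U^{(h)}`: the group generated by the root elements for the roots of height at least `h`. -/
noncomputable def UH (hC : SimplyLaced C) (K : Type) [Field K] (h : ℕ) : Subgroup (grp C K) :=
  Subgroup.closure {g | ∃ (β : Rt C) (a : FF K), (h : ℤ) ≤ ht β ∧ g = xg hC β a}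

/-- `U(𝒪)`: the group generated by the integral root elements for the positive roots. -/
noncomputable def UO (hC : SimplyLaced C) (K : Type) [Field K] : Subgroup (grp C K) :=
  Subgroup.closure {g | ∃ (β : Rt C) (a : FF K), β.Pos ∧ a ∈ Bd K 0 ∧ g = xg hC β a}

/-- The Iwahori group `I`. -/
noncomputable def Iw (hC : SimplyLaced C) (K : Type) [Field K] : Subgroup (grp C K) :=
  Subgroup.closure {g | ∃ (β : Rt C) (a : FF K),
    ((β.Pos ∧ a ∈ Bd K 0) ∨ (β.neg.Pos ∧ a ∈ Bd K (-1))) ∧ g = xg hC β a}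

/-- The group `I_i = ⟨x_{α_i}(𝒪), x_{-α_i}(t⁻¹ 𝒪)⟩`. -/
noncomputable def Ii (hC : SimplyLaced C) (K : Type) [Field K] (i : Fin r) :
    Subgroup (grp C K) :=
  Subgroup.closure ({g | ∃ a ∈ Bd K 0, g = xi hC i a} ∪ {g | ∃ a ∈ Bd K (-1), g = yi hC i a})

/-- The group `V_i = ⟨x_β(𝒪), x_{-β}(t⁻¹ 𝒪) : β > 0, β ≠ α_i⟩`. -/
noncomputable def Vi (hC : SimplyLaced C) (K : Type) [Field K] (i : Fin r) :
    Subgroup (grp C K) :=
  Subgroup.closure {g | ∃ (β : Rt C) (a : FF K),
    ((β.Pos ∧ β ≠ hC.sr i ∧ a ∈ Bd K 0) ∨ (β.neg.Pos ∧ β.neg ≠ hC.sr i ∧ a ∈ Bd K (-1))) ∧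
      g = xg hC β a}

/-- The horocycle `U t^l o`. -/
def Hor (hC : SimplyLaced C) (K : Type) [Field K] (l : Fin r → ℤ) : Set (XX C K) :=
  {y | ∃ u ∈ Ug C K, y = u • tp hC K l}

/-! ## Kernels -/

/-- `k` is the kernel of a spherical Hecke operator: it is `G`-invariant, with finite rows. -/
structure IsKer (k : XX C K → XX C K → ℂ) : Prop where
  inv : ∀ (g : grp C K) (x y : XX C K), k (g • x) (g • y) = k x y
  fin : ∀ x, {y | k x y ≠ 0}.Finite

/-- The composition of two kernels. -/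
noncomputable def kmul (k k' : XX C K → XX C K → ℂ) : XX C K → XX C K → ℂ :=
  fun x z => ∑ᶠ y, k x y * k' y z

/-- The adjoint kernel. -/
noncomputable def kst (k : XX C K → XX C K → ℂ) : XX C K → XX C K → ℂ :=
  fun x y => (starRingEnd ℂ) (k y x)

/-- The identity kernel. -/
noncomputable def kone : XX C K → XX C K → ℂ := by
  classical exact fun x y => if x = y then 1 else 0

/-- The sum over the horocycle. -/
noncomputable def hsum (hC : SimplyLaced C) (k : XX C K → XX C K → ℂ) (l : Fin r → ℤ) : ℂ :=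
  ∑ᶠ y ∈ Hor hC K l, k (oo C K) y

/-- The Satake transform of a kernel. -/
noncomputable def sat (hC : SimplyLaced C) (k : XX C K → XX C K → ℂ) (l : Fin r → ℤ) : ℂ :=
  (Nat.card K : ℂ) ^ hv l * hsum hC k l

/-- The operator with kernel `k` has norm at most `τ` on `ℓ²(X)`. -/
def KNorm (k : XX C K → XX C K → ℂ) (τ : ℝ) : Prop :=
  ∀ (S T : Finset (XX C K)) (φ : XX C K → ℂ),
    ∑ x ∈ S, ‖∑ y ∈ T, k x y * φ y‖ ^ 2 ≤ τ ^ 2 * ∑ y ∈ T, ‖φ y‖ ^ 2

/-- The mean value of `f` over the orbit of `z` under `J`. -/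
noncomputable def av {G X : Type} [Group G] [MulAction G X] (J : Subgroup G) (f : X → ℂ)
    (z : X) : ℂ :=
  (∑ᶠ y ∈ {y | ∃ j ∈ J, y = j • z}, f y) / Nat.card {y | ∃ j ∈ J, y = j • z}

/-! ## Basic facts -/

theorem tor_unique {l : Fin r → ℤ} {g g' : grp C K} (h : IsTor l g) (h' : IsTor l g') :
    g = g' :=
  grp_ext fun v => (h v).trans (h' v).symm

theorem smul_pt (g h : grp C K) : g • (pt h : XX C K) = pt (g * h) := rfl

theorem mem_maxK_iff (g : grp C K) : g ∈ maxK C K ↔ g • oo C K = oo C K := by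
  unfold oo
  rw [smul_pt, mul_one]
  unfold pt
  rw [eq_comm, QuotientGroup.eq, inv_one, one_mul]

theorem exists_smul (x : XX C K) : ∃ g : grp C K, x = g • oo C K := by
  induction x using QuotientGroup.induction_on with
  | H g =>
    refine ⟨g, ?_⟩
    unfold oo
    rw [smul_pt, mul_one]
    rfl

section
variable (hC : SimplyLaced C)
include hC

theorem isTor_tg (l : Fin r → ℤ) : IsTor l (tg hC K l) :=
  (H22.isTor_exists (K := K) hC l).choose_spec

theorem tg_eq {l : Fin r → ℤ} {g : grp C K} (h : IsTor l g) : g = tg hC K l :=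
  tor_unique h (isTor_tg hC l)

theorem tp_eq {l : Fin r → ℤ} {g : grp C K} (h : IsTor l g) : pt g = tp hC K l := by
  rw [tg_eq hC h]; rfl

theorem tg_zero : tg hC K 0 = 1 := (tg_eq hC H22.isTor_one).symm

theorem tg_add (l m : Fin r → ℤ) : tg hC K (l + m) = tg hC K l * tg hC K m :=
  (tg_eq hC (H22.isTor_mul (isTor_tg hC l) (isTor_tg hC m))).symm

theorem tg_neg (l : Fin r → ℤ) : tg hC K (-l) = (tg hC K l)⁻¹ :=
  (tg_eq hC (H22.isTor_inv (isTor_tg hC l))).symm

theorem tp_zero : tp hC K 0 = oo C K := by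
  unfold tp oo
  rw [tg_zero]

theorem tp_smul (l : Fin r → ℤ) : tg hC K l • oo C K = tp hC K l := by
  unfold oo tp
  rw [smul_pt, mul_one]

theorem tg_tp (l m : Fin r → ℤ) : tg hC K l • tp hC K m = tp hC K (l + m) := by
  unfold tp
  rw [smul_pt, tg_add]

/-- Conjugation of a root element by a torus element. -/
theorem tg_xg (l : Fin r → ℤ) (β : Rt C) (a : FF K) :
    tg hC K l * xg hC β a * (tg hC K l)⁻¹ = xg hC β (tt K ^ (ip C β.1 l) * a) :=
  H22.isTor_conj hC (isTor_tg hC l) β a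

/-- The root elements fixing a point `t^l o`. -/
theorem xg_tp (l : Fin r → ℤ) (β : Rt C) {a : FF K} (ha : a ∈ Bd K (ip C β.1 l)) :
    xg hC β a • tp hC K l = tp hC K l :=
  (H22.hMax r C hC K).2.2.2 l (tg hC K l) (isTor_tg hC l) β a ha

theorem xg_oo (β : Rt C) {a : FF K} (ha : a ∈ Bd K 0) : xg hC β a • oo C K = oo C K := by
  rw [← mem_maxK_iff]
  exact (H22.hMax r C hC K).1 β a ha

theorem xg_maxK (β : Rt C) {a : FF K} (ha : a ∈ Bd K 0) : xg hC β a ∈ maxK C K :=
  (H22.hMax r C hC K).1 β a ha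

theorem wi_maxK (i : Fin r) : wi hC K i ∈ maxK C K := ((H22.hMax r C hC K).2.1 (hC.sr i)).1

/-- The element `w_i` acts on the points `t^l o` as the simple reflection. -/
theorem wi_tp (i : Fin r) (l : Fin r → ℤ) : wi hC K i • tp hC K l = tp hC K (sf C i l) := by
  have h1 : IsTor (l - ip C l (hC.sr i).1 • (hC.sr i).1) (tg hC K (sf C i l)) := by
    have h2 : l - ip C l (hC.sr i).1 • (hC.sr i).1 = sf C i l := by
      rw [SimplyLaced.sr_val, hC.ip_comm]; rfl
    rw [h2]
    exact isTor_tg hC _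
  have h3 := (H22.tor r C hC K).2.2.2.2 l (tg hC K l) _ (hC.sr i) (isTor_tg hC l) h1
  unfold tp wi
  rw [smul_pt, h3, ← smul_pt]
  have h4 := (mem_maxK_iff _).mp (wi_maxK (K := K) hC i)
  have h5 : (pt (wg hC (hC.sr i) (1 : FF K)) : XX C K) = pt 1 := by
    unfold oo at h4
    rwa [smul_pt, mul_one] at h4
  rw [h5, smul_pt, mul_one]

/-- The rank one computation. -/
theorem rk1 (i : Fin r) (l : Fin r → ℤ) {b : FF K} {m : ℤ} (hm : ip C (al i) l < m)
    (hb : b ∈ Bd K m) (hb' : b ∉ Bd K (m - 1)) :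
    wi hC K i • xi hC i b • tp hC K l = xi hC i (-b⁻¹) • tp hC K (l - m • al i) := by
  have hF := H22.hF1 K
  rcases H22.hRk1 r C hC K i b l (tg hC K l) (isTor_tg hC l) with h | h
  · exact absurd (hF.2.2.2.2.1 _ _ _ (by omega) h.1) hb'
  · obtain ⟨m', h1, h2, h3, g', hg', h4⟩ := h
    have h5 : m' = m := by
      rcases lt_trichotomy m' m with h6 | h6 | h6
      · exact absurd (hF.2.2.2.2.1 _ _ _ (by omega) h2) hb'
      · exact h6
      · exact absurd (hF.2.2.2.2.1 _ _ _ (by omega) hb) h3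
    subst h5
    have h7 := tp_eq hC hg'
    rw [← h7]
    exact h4

/-- Iwasawa decomposition. -/
theorem iwa (x : XX C K) : ∃ u ∈ Ug C K, ∃ l : Fin r → ℤ, x = u • tp hC K l := by
  obtain ⟨u, hu, l, g, hg, hx⟩ := H22.hIwa r C hC K x
  exact ⟨u, hu, l, by rw [hx, tp_eq hC hg]⟩

theorem xg_Ug {β : Rt C} (hβ : β.Pos) (a : FF K) : xg hC β a ∈ Ug C K :=
  Subgroup.subset_closure ⟨β, a, hβ, fun _ => rfl⟩

theorem xg_Un {i : Fin r} {β : Rt C} (hβ : β.Pos) (hi : β.1 ≠ al i) (a : FF K) :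
    xg hC β a ∈ Un C K i :=
  Subgroup.subset_closure ⟨β, a, hβ, hi, fun _ => rfl⟩

omit hC in
theorem Un_le (i : Fin r) : Un C K i ≤ Ug C K := by
  refine Subgroup.closure_mono ?_
  rintro g ⟨β, a, hβ, -, h⟩
  exact ⟨β, a, hβ, h⟩

theorem Ug_eq : Ug C K =
    Subgroup.closure {g : grp C K | ∃ (β : Rt C) (a : FF K), β.Pos ∧ g = xg hC β a} := by
  unfold Ug
  congr 1
  ext g
  constructor
  · rintro ⟨β, a, hβ, h⟩
    exact ⟨β, a, hβ, eq_xg hC β a g h⟩
  · rintro ⟨β, a, hβ, rfl⟩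
    exact ⟨β, a, hβ, fun _ => rfl⟩

theorem Un_eq (i : Fin r) : Un C K i =
    Subgroup.closure {g : grp C K | ∃ (β : Rt C) (a : FF K), β.Pos ∧ β.1 ≠ al i ∧
      g = xg hC β a} := by
  unfold Un
  congr 1
  ext g
  constructor
  · rintro ⟨β, a, hβ, hi, h⟩
    exact ⟨β, a, hβ, hi, eq_xg hC β a g h⟩
  · rintro ⟨β, a, hβ, hi, rfl⟩
    exact ⟨β, a, hβ, hi, fun _ => rfl⟩

/-- A root is positive if and only if its height is at least `1`. -/
theorem pos_iff (β : Rt C) : β.Pos ↔ 1 ≤ ht β := by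
  constructor
  · intro h
    have h0 : ht β ≠ 0 := H22.ht_ne_zero H22.hRS hC β
    have h1 : 0 ≤ ht β := Finset.sum_nonneg fun i _ => h i
    omega
  · intro h
    rcases (H22.hRS r C hC).1 β with h1 | h1
    · exact h1
    · have h2 : 0 ≤ ht β.neg := Finset.sum_nonneg fun i _ => h1 i
      have h3 : ht β.neg = - ht β := by simp [ht]
      omega

theorem UH_one : UH hC K 1 = Ug C K := by
  rw [Ug_eq hC]
  unfold UH
  congr 1
  ext g
  constructor
  · rintro ⟨β, a, hβ, rfl⟩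
    exact ⟨β, a, (pos_iff hC β).mpr (by exact_mod_cast hβ), rfl⟩
  · rintro ⟨β, a, hβ, rfl⟩
    exact ⟨β, a, by exact_mod_cast (pos_iff hC β).mp hβ, rfl⟩

theorem UH_mono {h h' : ℕ} (hh : h ≤ h') : UH hC K h' ≤ UH hC K h := by
  refine Subgroup.closure_mono ?_
  rintro g ⟨β, a, hβ, rfl⟩
  exact ⟨β, a, by omega, rfl⟩

/-- `U = U_i x_i(F)`. -/
theorem ups (i : Fin r) {u : grp C K} (hu : u ∈ Ug C K) :
    ∃ b : FF K, ∃ u' ∈ Un C K i, u = u' * xi hC i b := (H22.hUps r C hC K i).1 u hu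

theorem wi_Un (i : Fin r) {u : grp C K} (hu : u ∈ Un C K i) :
    wi hC K i * u * (wi hC K i)⁻¹ ∈ Un C K i := (H22.hUps r C hC K i).2.1 u hu

theorem xi_Un (i : Fin r) {u : grp C K} (hu : u ∈ Un C K i) (a : FF K) :
    xi hC i a * u * (xi hC i a)⁻¹ ∈ Un C K i := (H22.hUps r C hC K i).2.2 u hu a

end

end

end Pool.Agent.TMP
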